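import Pool.Agent.Helper54.SAW2.Stmts

set_option autoImplicit false

/-!
# Block 2: the parity at the crossing points of the single-crossing columns
-/

namespace Pool.Agent.Helper1.SAW2

open Pool.Agent.Helper54.SAW Pool.Agent.Helper54.SAW2

theorem hc_eq_zero {x y : ℕ → ℤ} {i0 i1 : ℕ} {c h : ℤ}
    (H : ∀ i, i0 ≤ i → i < i1 → y (i + 1) = y i → h < y i →
      ¬ ((x i = c ∧ x (i + 1) = c + 1) ∨ (x i = c + 1 ∧ x (i + 1) = c))) :
    hc x y i0 i1 c h = 0 := by
  unfold hc
  rw [Finset.card_eq_zero, Finset.filter_eq_empty_iff]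
  intro i hi
  rw [Finset.mem_Ico] at hi
  rintro ⟨h1, h2, h3⟩
  exact H i hi.1 hi.2 h1 h2 h3

theorem hc_last {x y : ℕ → ℤ} {i0 i1 : ℕ} {c h : ℤ} (h1 : i0 < i1)
    (hy : y i1 ≠ y (i1 - 1)) : hc x y i0 i1 c h = hc x y i0 (i1 - 1) c h := by
  unfold hc
  congr 1
  ext i
  rw [Finset.mem_filter, Finset.mem_filter, Finset.mem_Ico, Finset.mem_Ico]
  constructor
  · rintro ⟨⟨h2, h3⟩, h4, h5⟩
    refine ⟨⟨h2, ?_⟩, h4, h5⟩
    by_contra h6
    have h7 : i = i1 - 1 := by omega
    subst h7
    apply hy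
    rw [← h4]
    congr 1
    omega
  · rintro ⟨⟨h2, h3⟩, h4⟩
    exact ⟨⟨h2, by omega⟩, h4⟩

theorem x_pred_tip {x y : ℕ → ℤ} {n t : ℕ} (hN : NN x y n) (ht : t ≤ n) (h0 : 0 < t)
    (hy : y (t - 1) = y t + 1) : x (t - 1) = x t := by
  have h1 := hN (t - 1) (by omega)
  unfold Stp at h1
  have h2 : t - 1 + 1 = t := by omega
  rw [h2] at h1
  rcases h1 with ⟨h1, -⟩ | ⟨h1, -⟩
  · exact h1.symm
  · omega

theorem sigA (hT : TransportS) : SigAS := by
  intro x y n t hN hA hTip h0 hy c s hs h1 h2 h3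
  obtain ⟨ht, t1, t2⟩ := hTip
  have hx := x_pred_tip hN ht h0 hy
  have hct := h2 t hs le_rfl
  have hs1 : s < t - 1 := by
    by_contra hcon
    have h4 : s = t - 1 := by omega
    have h5 := h1 s le_rfl
    rw [h4, hx] at h5
    omega
  have hss := hN s (by omega)
  have hsc := h1 s le_rfl
  have hsc' := h2 (s + 1) (by omega) (by omega)
  have hkey : x (s + 1) = c + 1 ∧ y (s + 1) = y s := by
    unfold Stp at hss
    omega
  have key := hT x y t n ht (fun i _ hi => hN i hi) x y (s + 1) (t - 1) (by omega)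
    (fun j _ hj => hN j (by omega)) c (x t)
    (fun j hj hj' => ⟨h2 j (by omega) (by omega), t1 j (by omega)⟩)
    (Or.inr le_rfl) (Or.inl h3)
    (fun i j hi hi' hj hj' hij => hA j i (by omega) hi' ⟨hij.1.symm, hij.2.symm⟩)
  rw [hkey.1, hkey.2, hx, hy] at key
  have h6 : c + 1 - 1 = c := by ring
  rw [h6] at key
  rw [key]
  have h7 : hc x y t n (x t - 1) (y t + 1) = 0 := by
    apply hc_eq_zero
    intro i hi hi' _ hyi hxi
    rcases Nat.lt_or_ge t i with hti | hti
    · have e1 := t2 i hti (by omega)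
      have e2 := t2 (i + 1) (by omega) (by omega)
      omega
    · have h8 : i = t := by omega
      subst h8
      omega
  rw [h7]

theorem sigB (hC : HcColS) (hT : TransportRS) : SigBS := by
  intro x y n t hN hA hTip h0 hy c s hts hsn h1 h2 h3
  obtain ⟨ht, t1, t2⟩ := hTip
  have hx := x_pred_tip hN ht h0 hy
  have hct := h1 t le_rfl hts
  have hss := hN s hsn
  have hsc := h1 s hts le_rfl
  have hsc' := h2 (s + 1) (by omega) (by omega)
  have hkey : x (s + 1) = c ∧ y (s + 1) = y s := by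
    unfold Stp at hss
    omega
  have htt := hN t (by omega)
  have htc := t2 (t + 1) (by omega) (by omega)
  have hkey2 : x (t + 1) = x t - 1 ∧ y (t + 1) = y t := by
    unfold Stp at htt
    omega
  have key := hT x y 0 t (Nat.zero_le _) (fun i _ hi => hN i (by omega)) x y (t + 1) (s + 1)
    (by omega) (fun j _ hj => hN j (by omega)) c (x t)
    (fun j hj hj' => by
      refine ⟨?_, t2 j (by omega) (by omega)⟩
      rcases Nat.lt_or_ge s j with hj2 | hj2
      · have : j = s + 1 := by omega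
        subst this
        omega
      · exact (h1 j (by omega) hj2).le)
    (Or.inl h3) (Or.inr le_rfl)
    (fun i j hi hi' hj hj' hij => hA i j (by omega) (by omega) hij)
  rw [hkey.1, hkey.2, hkey2.1, hkey2.2] at key
  rw [← key]
  have h4 : hc x y 0 t (x t - 1) (y t) = hc x y 0 (t - 1) (x t - 1) (y t) :=
    hc_last h0 (by omega)
  rw [h4]
  have col := hC x y 0 (t - 1) (Nat.zero_le _) (fun i _ hi => hN i (by omega)) (x t - 1) (y t)
    (fun i _ hi hij => hA i t (by omega) ht ⟨by omega, hij.2⟩)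
  have h5 : x t - 1 + 1 = x t := by ring
  rw [h5] at col
  have h6 : hc x y 0 (t - 1) (x t) (y t) = 0 := by
    apply hc_eq_zero
    intro i hi hi' _ hyi hxi
    have e1 := t1 i (by omega)
    have e2 := t1 (i + 1) (by omega)
    omega
  rw [h6, if_neg (by omega), if_pos ⟨hx, by omega⟩] at col
  omega

end Pool.Agent.Helper1.SAW2
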